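import Pool.Agent.Q284.DL.Eu

/-! Power traces determine determinants; rational isomorphisms. -/

set_option autoImplicit false
set_option linter.unusedSectionVars false

namespace Pool.Agent.Q284.BD

open Pool.Agent.Q284.DL

theorem deriv_prod (R : Multiset ℂ) :
    HasDerivAt (fun x : ℂ => (R.map fun a => 1 - x * a).prod) (-R.sum) 0 := by
  induction R using Multiset.induction_on with
  | empty => simpa using hasDerivAt_const (0 : ℂ) (1 : ℂ)
  | cons a R ih =>
    have h1 : HasDerivAt (fun x : ℂ => 1 - x * a) (-a) 0 := by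
      have := ((hasDerivAt_id (0 : ℂ)).mul_const a).const_sub 1
      simpa using this
    have h2 := h1.mul ih
    simp only [Multiset.map_cons, Multiset.prod_cons, Multiset.sum_cons]
    have h3 : -(a + R.sum) = -a * (R.map fun b => 1 - (0 : ℂ) * b).prod +
        (1 - 0 * a) * -R.sum := by
      simp
      ring
    rw [h3]
    exact h2

theorem trace_pow {m : ℕ} (A : Matrix (Fin m) (Fin m) ℂ) (k : ℕ) :
    (A ^ k).trace = (A.charpoly.roots.map fun a => a ^ k).sum := by
  rcases Nat.eq_zero_or_pos k with rfl | hk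
  · have hcard : A.charpoly.roots.card = m := by
      rw [← (IsAlgClosed.splits A.charpoly).natDegree_eq_card_roots,
        Matrix.charpoly_natDegree_eq_dim, Fintype.card_fin]
    simp [hcard]
  · have h1 : (fun x : ℂ => ((A ^ k).charpoly.roots.map fun b => 1 - x * b).prod) =
        fun x : ℂ => ((A.charpoly.roots.map fun a => a ^ k).map fun b => 1 - x * b).prod := by
      funext x
      rw [← det_one_sub_smul, det_one_sub_pow A x hk, Multiset.map_map]
      rfl
    have h2 := deriv_prod (A ^ k).charpoly.roots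
    have h3 := deriv_prod (A.charpoly.roots.map fun a => a ^ k)
    rw [h1] at h2
    have h4 := h2.unique h3
    rw [Matrix.trace_eq_sum_roots_charpoly]
    exact neg_injective h4

/-- power sums with integral coefficients determine the multiplicities -/
theorem mult_eq {ι : Type} [Fintype ι] (R : ι → Multiset ℂ) (c : ι → ℤ) (R₀ : Multiset ℂ)
    (h : ∀ k : ℕ, ∑ j, (c j : ℂ) * ((R j).map fun a => a ^ k).sum = (R₀.map fun a => a ^ k).sum)
    (a : ℂ) : ∑ j, c j * ((R j).count a : ℤ) = (R₀.count a : ℤ) := by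
  classical
  let S : Finset ℂ := insert a (R₀.toFinset ∪ Finset.univ.biUnion fun j => (R j).toFinset)
  have hR : ∀ j, (R j).toFinset ⊆ S := fun j => by
    refine (Finset.subset_biUnion_of_mem (fun j => (R j).toFinset) (Finset.mem_univ j)).trans ?_
    exact Finset.subset_union_right.trans (Finset.subset_insert _ _)
  have hR₀ : R₀.toFinset ⊆ S := Finset.subset_union_left.trans (Finset.subset_insert _ _)
  have key : ∀ T : Multiset ℂ, T.toFinset ⊆ S → ∀ k : ℕ,
      (T.map fun b => b ^ k).sum = ∑ b ∈ S, (T.count b : ℂ) * b ^ k := by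
    intro T hT k
    rw [Finset.sum_multiset_map_count]
    simp only [nsmul_eq_mul]
    refine Finset.sum_subset hT fun b _ hb => ?_
    rw [Multiset.count_eq_zero_of_notMem (fun h => hb (Multiset.mem_toFinset.2 h)),
      Nat.cast_zero, zero_mul]
  let d : ℂ → ℤ := fun b => ∑ j, c j * ((R j).count b : ℤ) - (R₀.count b : ℤ)
  have h1 : ∀ k : ℕ, ∑ b ∈ S, (d b : ℂ) * b ^ k = 0 := by
    intro k
    have h2 := h k
    rw [key R₀ hR₀ k, Finset.sum_congr rfl fun j _ => by rw [key (R j) (hR j) k]] at h2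
    have h3 : ∑ b ∈ S, (d b : ℂ) * b ^ k = (∑ j, (c j : ℂ) * ∑ b ∈ S, ((R j).count b : ℂ) * b ^ k) -
        ∑ b ∈ S, (R₀.count b : ℂ) * b ^ k := by
      simp only [d, Finset.mul_sum]
      rw [Finset.sum_comm, ← Finset.sum_sub_distrib]
      refine Finset.sum_congr rfl fun b _ => ?_
      push_cast
      rw [sub_mul, Finset.sum_mul]
      congr 1
      exact Finset.sum_congr rfl fun j _ => by ring
    rw [h3, h2, sub_self]
  have h4 := linearIndependent_monoidHom (Multiplicative ℕ) ℂ
  have h5 : LinearIndependent ℂ (fun b : S => ((powersHom ℂ (b : ℂ) : Multiplicative ℕ →* ℂ) :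
      Multiplicative ℕ → ℂ)) := by
    refine h4.comp (fun b : S => powersHom ℂ (b : ℂ)) fun x y hxy => ?_
    exact Subtype.ext ((powersHom ℂ).injective hxy)
  rw [Fintype.linearIndependent_iff] at h5
  have h6 := h5 (fun b => (d b.1 : ℂ)) (by
    funext k
    have := h1 (Multiplicative.toAdd k)
    rw [← Finset.sum_coe_sort] at this
    simpa [powersHom_apply] using this) ⟨a, Finset.mem_insert_self _ _⟩
  have h7 : d a = 0 := by exact_mod_cast h6
  exact sub_eq_zero.1 h7

theorem prod_eq {ι : Type} [Fintype ι] (R : ι → Multiset ℂ) (c : ι → ℤ) (R₀ : Multiset ℂ)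
    (h : ∀ k : ℕ, ∑ j, (c j : ℂ) * ((R j).map fun a => a ^ k).sum = (R₀.map fun a => a ^ k).sum)
    (hR : ∀ j, (0 : ℂ) ∉ R j) (hR₀ : (0 : ℂ) ∉ R₀) : ∏ j, (R j).prod ^ (c j) = R₀.prod := by
  classical
  let S : Finset ℂ := R₀.toFinset ∪ Finset.univ.biUnion fun j => (R j).toFinset
  have hS : ∀ j, (R j).toFinset ⊆ S := fun j =>
    (Finset.subset_biUnion_of_mem (fun j => (R j).toFinset) (Finset.mem_univ j)).trans
      Finset.subset_union_right
  have hS0 : ∀ b ∈ S, b ≠ 0 := by
    rintro b hb rfl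
    rcases Finset.mem_union.1 hb with h1 | h1
    · exact hR₀ (Multiset.mem_toFinset.1 h1)
    · obtain ⟨j, -, h2⟩ := Finset.mem_biUnion.1 h1
      exact hR j (Multiset.mem_toFinset.1 h2)
  have key : ∀ T : Multiset ℂ, T.toFinset ⊆ S → T.prod = ∏ b ∈ S, b ^ (T.count b) := by
    intro T hT
    rw [Finset.prod_multiset_count]
    refine Finset.prod_subset hT fun b _ hb => ?_
    rw [Multiset.count_eq_zero_of_notMem (fun h => hb (Multiset.mem_toFinset.2 h)), pow_zero]
  rw [key R₀ Finset.subset_union_left]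
  have h1 : ∀ j, (R j).prod ^ (c j) = ∏ b ∈ S, b ^ (c j * ((R j).count b : ℤ)) := by
    intro j
    rw [key (R j) (hS j), ← Finset.prod_zpow]
    refine Finset.prod_congr rfl fun b _ => ?_
    rw [← zpow_natCast, ← zpow_mul, mul_comm]
  rw [Finset.prod_congr rfl fun j _ => h1 j, Finset.prod_comm]
  refine Finset.prod_congr rfl fun b hb => ?_
  have h2 : ∀ T : Finset ι, ∏ j ∈ T, b ^ (c j * ((R j).count b : ℤ)) =
      b ^ (∑ j ∈ T, c j * ((R j).count b : ℤ)) := by
    intro T
    induction T using Finset.induction_on with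
    | empty => simp
    | insert i T hi ih => rw [Finset.prod_insert hi, Finset.sum_insert hi, ih,
        zpow_add₀ (hS0 b hb)]
  rw [h2, mult_eq R c R₀ h b, zpow_natCast]

/-- **Power traces determine determinants.** -/
theorem det_rel {ι : Type} [Fintype ι] {m : ι → ℕ} (B : ∀ j, Matrix (Fin (m j)) (Fin (m j)) ℂ)
    (c : ι → ℤ) {m₀ : ℕ} (B₀ : Matrix (Fin m₀) (Fin m₀) ℂ) (hB : ∀ j, (B j).det ≠ 0)
    (hB₀ : B₀.det ≠ 0)
    (h : ∀ k : ℕ, ∑ j, (c j : ℂ) * ((B j) ^ k).trace = (B₀ ^ k).trace) :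
    ∏ j, (B j).det ^ (c j) = B₀.det := by
  have h0 : ∀ {n : ℕ} (A : Matrix (Fin n) (Fin n) ℂ), A.det ≠ 0 → (0 : ℂ) ∉ A.charpoly.roots := by
    intro n A hA h1
    rw [Matrix.det_eq_prod_roots_charpoly] at hA
    exact hA (Multiset.prod_eq_zero h1)
  have h1 := prod_eq (fun j => (B j).charpoly.roots) c B₀.charpoly.roots (fun k => by
    have := h k
    simp only [trace_pow] at this
    exact this) (fun j => h0 _ (hB j)) (h0 _ hB₀)
  simp only [← Matrix.det_eq_prod_roots_charpoly] at h1
  exact h1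

/-- **A complex isomorphism of rational representations gives a rational one.** -/
theorem exists_rational {G : Type} {k : ℕ} (ρ ρ' : G → Matrix (Fin k) (Fin k) ℚ)
    (A : Matrix (Fin k) (Fin k) ℂ) (hA : A.det ≠ 0)
    (h : ∀ g, A * (ρ g).map (algebraMap ℚ ℂ) = (ρ' g).map (algebraMap ℚ ℂ) * A) :
    ∃ T : Matrix (Fin k) (Fin k) ℚ, T.det ≠ 0 ∧ ∀ g, T * ρ g = ρ' g * T := by
  classical
  let V : Submodule ℚ ℂ := Submodule.span ℚ (Set.range fun x : Fin k × Fin k => A x.1 x.2)
  have hfin : FiniteDimensional ℚ V := FiniteDimensional.span_of_finite ℚ (Set.finite_range _)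
  let b := Module.finBasis ℚ V
  have hmem : ∀ i j, A i j ∈ V := fun i j => Submodule.subset_span ⟨(i, j), rfl⟩
  let T : Fin (Module.finrank ℚ V) → Matrix (Fin k) (Fin k) ℚ := fun a =>
    Matrix.of fun i j => b.repr ⟨A i j, hmem i j⟩ a
  have hAT : A = ∑ a, (b a : ℂ) • (T a).map (algebraMap ℚ ℂ) := by
    ext i j
    have h1 := congrArg (fun v : V => (v : ℂ)) (b.sum_repr ⟨A i j, hmem i j⟩)
    simp only [Submodule.coe_sum, Submodule.coe_smul] at h1
    rw [Matrix.sum_apply]
    simp only [Matrix.smul_apply, Matrix.map_apply, smul_eq_mul]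
    refine Eq.trans h1.symm (Finset.sum_congr rfl fun a _ => ?_)
    rw [Rat.smul_def, mul_comm]
    rfl
  have hli : LinearIndependent ℚ (fun a => (b a : ℂ)) :=
    b.linearIndependent.map' V.subtype (Submodule.ker_subtype V)
  have hT : ∀ a g, T a * ρ g = ρ' g * T a := by
    intro a g
    have h1 := h g
    rw [hAT, Finset.sum_mul, Finset.mul_sum] at h1
    ext i j
    have h2 := congrFun (congrFun h1 i) j
    rw [Matrix.sum_apply, Matrix.sum_apply] at h2
    have h3 : ∑ a, ((T a * ρ g) i j - (ρ' g * T a) i j) • (b a : ℂ) = 0 := by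
      have h4 : ∀ a, ((T a * ρ g) i j - (ρ' g * T a) i j) • (b a : ℂ) =
          (((b a : ℂ) • (T a).map (algebraMap ℚ ℂ)) * (ρ g).map (algebraMap ℚ ℂ)) i j -
          ((ρ' g).map (algebraMap ℚ ℂ) * ((b a : ℂ) • (T a).map (algebraMap ℚ ℂ))) i j := by
        intro a
        rw [Matrix.smul_mul, Matrix.mul_smul, ← Matrix.map_mul, ← Matrix.map_mul,
          Matrix.smul_apply, Matrix.smul_apply, Matrix.map_apply, Matrix.map_apply, Rat.smul_def]
        push_cast
        simp only [smul_eq_mul, eq_ratCast]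
        ring
      rw [Finset.sum_congr rfl fun a _ => h4 a, Finset.sum_sub_distrib, h2, sub_self]
    rw [Fintype.linearIndependent_iff] at hli
    exact sub_eq_zero.1 (hli _ h3 a)
  -- the polynomial
  let M : Matrix (Fin k) (Fin k) (MvPolynomial (Fin (Module.finrank ℚ V)) ℚ) :=
    ∑ a, (MvPolynomial.X a : MvPolynomial (Fin (Module.finrank ℚ V)) ℚ) •
      (T a).map MvPolynomial.C
  have hM : M.det ≠ 0 := by
    intro h0
    apply hA
    have h1 := RingHom.map_det ((MvPolynomial.aeval fun a => (b a : ℂ)).toRingHom :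
      MvPolynomial (Fin (Module.finrank ℚ V)) ℚ →+* ℂ) M
    rw [h0, map_zero] at h1
    rw [h1]
    congr 1
    rw [hAT]
    ext i j
    simp only [M, RingHom.mapMatrix_apply, Matrix.map_apply, Matrix.sum_apply, Matrix.smul_apply,
      smul_eq_mul, map_sum, map_mul]
    refine Finset.sum_congr rfl fun a _ => ?_
    simp
  obtain ⟨x, hx⟩ : ∃ x : Fin (Module.finrank ℚ V) → ℚ, MvPolynomial.eval x M.det ≠ 0 := by
    by_contra hcon
    push Not at hcon
    exact hM (MvPolynomial.funext fun x => by rw [hcon x, map_zero])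
  refine ⟨∑ a, x a • T a, ?_, fun g => ?_⟩
  · rw [RingHom.map_det] at hx
    have h1 : (MvPolynomial.eval x).mapMatrix M = ∑ a, x a • T a := by
      ext i j
      simp only [M, RingHom.mapMatrix_apply, Matrix.map_apply, Matrix.sum_apply, Matrix.smul_apply,
        smul_eq_mul, map_sum, map_mul]
      refine Finset.sum_congr rfl fun a _ => ?_
      simp
    rwa [h1] at hx
  · rw [Finset.sum_mul, Finset.mul_sum]
    refine Finset.sum_congr rfl fun a _ => ?_
    rw [Matrix.smul_mul, Matrix.mul_smul, hT a g]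

end Pool.Agent.Q284.BD
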