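import Pool.Agent.Q284.BD.Ga
import Pool.Agent.Q284.DL.Re
import Mathlib.Analysis.Meromorphic.TrailingCoefficient

/-! Leading coefficients against regulators: the weak form over two disjoint Galois fields implies the
strong form over `ℚ`. -/

set_option autoImplicit false
set_option linter.unusedSectionVars false

namespace Pool.Agent.Q284.BD

open Complex Filter Topology NumberField IsDedekindDomain Pool.Agent.W401.Cheb
  Pool.Agent.W353.NF Pool.Agent.Q5.BR Pool.Agent.Q5.DP Pool.Agent.Q284.DL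
open Pool.Agent.Q5.SO (Hyper)

section
variable {r : ℕ} {Φ : ℕ → Matrix (Fin r) (Fin r) ℚ} {w : ℤ}

/-- `z` is the leading coefficient at `0` of the meromorphic continuation of the Euler product over
`F` -/
def IsLead (w : ℤ) (Φ : ℕ → Matrix (Fin r) (Fin r) ℚ) (F : Type) [Field F] [NumberField F]
    (z : ℂ) : Prop :=
  ∃ f : ℂ → ℂ, MeromorphicOn f Set.univ ∧
    (∀ s : ℂ, (w : ℝ) / 2 + 1 < s.re → f s = LFun Φ F s) ∧ meromorphicTrailingCoeffAt f 0 = z

/-- the identity theorem -/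
theorem mero_ne {f g : ℂ → ℂ} {a : ℝ} (hf : MeromorphicOn f Set.univ)
    (hg : MeromorphicOn g Set.univ) (h : ∀ s : ℂ, a < s.re → f s = g s) : f =ᶠ[𝓝[≠] 0] g := by
  have hfg : MeromorphicOn (f - g) Set.univ := hf.sub hg
  have h1 : meromorphicOrderAt (f - g) ((a + 1 : ℝ) : ℂ) = ⊤ := by
    rw [meromorphicOrderAt_eq_top_iff]
    refine Filter.Eventually.filter_mono nhdsWithin_le_nhds ?_
    have h2 : ∀ᶠ s : ℂ in 𝓝 ((a + 1 : ℝ) : ℂ), a < s.re :=
      (isOpen_lt continuous_const Complex.continuous_re).mem_nhds (by simp)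
    filter_upwards [h2] with s hs
    rw [Pi.sub_apply, h s hs, sub_self]
  have h3 : meromorphicOrderAt (f - g) 0 = ⊤ := by
    by_contra hne
    have h4 : ∃ u : (Set.univ : Set ℂ), meromorphicOrderAt (f - g) u ≠ ⊤ := ⟨⟨0, trivial⟩, hne⟩
    have h5 := (hfg.exists_meromorphicOrderAt_ne_top_iff_forall
      ⟨⟨0, trivial⟩, isPreconnected_univ⟩).1 h4
    exact h5 ⟨_, trivial⟩ h1
  rw [meromorphicOrderAt_eq_top_iff] at h3
  filter_upwards [h3] with s hs
  exact sub_eq_zero.1 hs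

theorem lead_unique {F : Type} [Field F] [NumberField F] {z z' : ℂ} (h : IsLead w Φ F z)
    (h' : IsLead w Φ F z') : z = z' := by
  obtain ⟨f, hf, hfs, rfl⟩ := h
  obtain ⟨g, hg, hgs, rfl⟩ := h'
  exact meromorphicTrailingCoeffAt_congr_nhdsNE
    (mero_ne hf hg fun s hs => (hfs s hs).trans (hgs s hs).symm)

theorem lead_ne (hΦ : HasWeights w Φ) {F : Type} [Field F] [NumberField F] {z : ℂ}
    (h : IsLead w Φ F z) : z ≠ 0 := by
  obtain ⟨f, hf, hfs, rfl⟩ := h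
  refine (hf 0 trivial).meromorphicTrailingCoeffAt_ne_zero ?_
  intro h0
  rw [meromorphicOrderAt_eq_top_iff] at h0
  have h1 : ∃ u : (Set.univ : Set ℂ), meromorphicOrderAt f u ≠ ⊤ := by
    refine ⟨⟨(((w : ℝ) / 2 + 2 : ℝ) : ℂ), trivial⟩, ?_⟩
    intro h2
    rw [meromorphicOrderAt_eq_top_iff] at h2
    have h3 : ∀ᶠ s : ℂ in 𝓝[≠] ((((w : ℝ) / 2 + 2 : ℝ) : ℂ)), (w : ℝ) / 2 + 1 < s.re := by
      refine Filter.Eventually.filter_mono nhdsWithin_le_nhds ?_
      exact (isOpen_lt continuous_const Complex.continuous_re).mem_nhds (by simp)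
    obtain ⟨s, hs1, hs2⟩ := (h2.and h3).exists
    rw [hfs s hs2] at hs1
    exact LFun_ne hΦ hs2 hs1
  have h5 := (hf.exists_meromorphicOrderAt_ne_top_iff_forall
    ⟨⟨0, trivial⟩, isPreconnected_univ⟩).1 h1
  exact h5 ⟨0, trivial⟩ (meromorphicOrderAt_eq_top_iff.2 h0)

/-- the weak form over `F`, with a factor in `L` -/
def Weak (w : ℤ) (Φ : ℕ → Matrix (Fin r) (Fin r) ℚ)
    (Reg : ∀ (F : Type) [Field F] [NumberField F], ℂ → Prop) (L : Type) [Field L] (F : Type)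
    [Field F] [NumberField F] : Prop :=
  ∃ z : ℂ, IsLead w Φ F z ∧ ∃ c : ℂ, Reg F c ∧ ∃ (τ : L →+* ℂ) (x : L), z = τ x * c

/-- the weak form over subfields of `L` whose permutation characters have an integral combination
equal to `1` -/
def WeakOver (w : ℤ) (Φ : ℕ → Matrix (Fin r) (Fin r) ℚ)
    (Reg : ∀ (F : Type) [Field F] [NumberField F], ℂ → Prop) (L : Type) [Field L] : Prop :=
  ∃ (ι : Type) (_ : Fintype ι) (F : ι → Type) (_ : ∀ j, Field (F j)) (_ : ∀ j, NumberField (F j))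
    (_ : ∀ j, F j →+* L) (n : ι → ℤ),
    (∀ g : AlgebraicClosure ℚ ≃+* AlgebraicClosure ℚ, ∑ j, n j * (fixed (F j) g : ℤ) = 1) ∧
    ∀ j, Weak w Φ Reg L (F j)

/-- the images of `L` and `L'` in `ℂ` meet in `ℚ` -/
def Disj (L L' : Type) [Field L] [Field L'] : Prop :=
  ∀ (τ : L →+* ℂ) (τ' : L' →+* ℂ) (x : L) (x' : L'), τ x = τ' x' → ∃ q : ℚ, τ x = q

/-- **The relation between the leading coefficients and the regulators.** -/
theorem lead_formula (hΦ : HasWeights w Φ)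
    {Reg : ∀ (F : Type) [Field F] [NumberField F], ℂ → Prop}
    {L : Type} [Field L] [NumberField L] [IsGalois ℚ L] (hReg : Descent Reg L)
    {ι : Type} [Fintype ι] {F : ι → Type} [∀ j, Field (F j)] [∀ j, NumberField (F j)]
    (i : ∀ j, F j →+* L) (n : ι → ℤ)
    (hrel : ∀ g : AlgebraicClosure ℚ ≃+* AlgebraicClosure ℚ, ∑ j, n j * (fixed (F j) g : ℤ) = 1)
    {c' z : ι → ℂ} (hc' : ∀ j, Reg (F j) (c' j)) (hz : ∀ j, IsLead w Φ (F j) (z j))
    {c : ℂ} (hc : Reg ℚ c) :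
    c ≠ 0 ∧ (∀ j, c' j ≠ 0) ∧ ∃ z₀, IsLead w Φ ℚ z₀ ∧ ∃ q : ℚ, q ≠ 0 ∧
      z₀ / c = q * ∏ j, (z j / c' j) ^ (n j) := by
  classical
  -- the relation of the regulators
  have hrelL : ∀ g : L ≃ₐ[ℚ] L, ∑ j, n j * (fixed (F j) (g : L ≃+* L) : ℤ) = 1 := by
    intro g
    obtain ⟨σ, hσ⟩ := exists_gal g
    rw [← hrel (σ : AlgebraicClosure ℚ ≃+* AlgebraicClosure ℚ)]
    refine Finset.sum_congr rfl fun j _ => ?_
    rw [← hσ (F j) inferInstance (i j), fixn_fixed (Module.finrank_self ℚ)]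
  obtain ⟨hc0, hc1, q, hq, hcq⟩ := reg_rel hReg i n hrelL hc' hc
  -- the relation of the Euler products
  have hrelK : ∀ σ : GK ℚ, ∑ j, n j * (fixn ℚ (F j) σ : ℤ) = 1 := by
    intro σ
    rw [← hrel (σ : AlgebraicClosure ℚ ≃+* AlgebraicClosure ℚ)]
    refine Finset.sum_congr rfl fun j _ => ?_
    rw [fixn_fixed (Module.finrank_self ℚ)]
  let X : ι → Ext ℚ := fun j => Ext.mk (K := ℚ) (F j)
  obtain ⟨T, hT⟩ := L_pow (X := X) (n := n) (m := 1) hrelK hΦ
  have hf := hz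
  choose f hf1 hf2 hf3 using hf
  obtain ⟨q', hq'⟩ := Rf_rat (Φ := Φ) X n 1 T
  have hRf0 := Rf_ne X n 1 T hΦ
  let G : ℂ → ℂ := fun s => Rf Φ X n 1 T s * ∏ j, (f j s) ^ (n j)
  have hGm : MeromorphicOn G Set.univ := by
    intro s hs
    refine MeromorphicAt.fun_mul (Rf_mero X n 1 T s hs) (MeromorphicAt.fun_prod fun j _ => ?_)
    exact MeromorphicAt.fun_zpow (hf1 j s hs) _
  have hGt : meromorphicTrailingCoeffAt G 0 = Rf Φ X n 1 T 0 * ∏ j, (z j) ^ (n j) := by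
    have h1 : ∀ j, MeromorphicAt (fun s => (f j s) ^ (n j)) 0 := fun j =>
      MeromorphicAt.fun_zpow (hf1 j 0 trivial) _
    have h2 : MeromorphicAt (fun s => ∏ j, (f j s) ^ (n j)) 0 :=
      MeromorphicAt.fun_prod fun j _ => h1 j
    change meromorphicTrailingCoeffAt (fun s => Rf Φ X n 1 T s * ∏ j, (f j s) ^ (n j)) 0 = _
    rw [MeromorphicAt.meromorphicTrailingCoeffAt_fun_mul (Rf_mero X n 1 T 0 trivial) h2,
      (Rf_analytic X n 1 T hΦ).meromorphicTrailingCoeffAt_of_ne_zero hRf0,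
      meromorphicTrailingCoeffAt_fun_prod fun j _ => h1 j]
    congr 1
    refine Finset.prod_congr rfl fun j _ => ?_
    rw [MeromorphicAt.meromorphicTrailingCoeffAt_fun_zpow (hf1 j 0 trivial), hf3 j]
  have hlead : IsLead w Φ ℚ (Rf Φ X n 1 T 0 * ∏ j, (z j) ^ (n j)) := by
    refine ⟨G, hGm, fun s hs => ?_, hGt⟩
    have h1 := hT s hs
    rw [zpow_one] at h1
    rw [h1]
    change Rf Φ X n 1 T s * ∏ j, (f j s) ^ (n j) = _
    have h2 : ∀ j, f j s = LFun Φ (X j).F s := fun j => hf2 j s hs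
    simp only [h2]
  refine ⟨hc1, hc0, _, hlead, q' * q, ?_, ?_⟩
  · refine mul_ne_zero ?_ hq
    intro h0
    rw [h0, Rat.cast_zero] at hq'
    exact hRf0 hq'
  · have h3 : ∏ j, (z j / c' j) ^ (n j) = (∏ j, (z j) ^ (n j)) / (q * c) := by
      rw [← hcq, ← Finset.prod_div_distrib]
      exact Finset.prod_congr rfl fun j _ => div_zpow _ _ _
    have hq0 : (q : ℂ) ≠ 0 := by exact_mod_cast hq
    rw [h3, hq']
    push_cast
    field_simp

/-- all embeddings of a Galois field have the same image -/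
theorem exists_same {L : Type} [Field L] [NumberField L] [IsGalois ℚ L] (τ₀ τ : L →+* ℂ) (x : L) :
    ∃ y : L, τ x = τ₀ y := by
  have h1 : ∃ s : L ≃ₐ[ℚ] L, τ₀.comp ((s : L ≃+* L) : L →+* L) = τ := by
    let _ : Algebra L ℂ := τ₀.toAlgebra
    have hst : IsScalarTower ℚ L ℂ := inferInstance
    let f' : L →ₐ[ℚ] ℂ := τ.toRatAlgHom
    refine ⟨Normal.algHomEquivAut ℚ ℂ L f', RingHom.ext fun x => ?_⟩
    have h1 : (Normal.algHomEquivAut ℚ ℂ L).symm (Normal.algHomEquivAut ℚ ℂ L f') = f' :=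
      Equiv.symm_apply_apply _ _
    exact DFunLike.congr_fun h1 x
  obtain ⟨s, hs⟩ := h1
  exact ⟨s x, (DFunLike.congr_fun hs x).symm⟩

/-- the weak form over `L` gives the weak form for `ℚ` -/
theorem lead_rel (hΦ : HasWeights w Φ) {Reg : ∀ (F : Type) [Field F] [NumberField F], ℂ → Prop}
    {L : Type} [Field L] [NumberField L] [IsGalois ℚ L] (hReg : Descent Reg L)
    (h : WeakOver w Φ Reg L) {c : ℂ} (hc : Reg ℚ c) :
    c ≠ 0 ∧ ∃ z, IsLead w Φ ℚ z ∧ ∃ (τ : L →+* ℂ) (x : L), z = τ x * c := by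
  classical
  obtain ⟨ι, _, F, _, _, i, n, hrel, hw⟩ := h
  choose z hz c' hc' τ x hzx using hw
  obtain ⟨hc0, hc1, z₀, hz₀, q, hq, hzq⟩ := lead_formula hΦ hReg i n hrel hc' hz hc
  refine ⟨hc0, z₀, hz₀, ?_⟩
  obtain ⟨τ₀⟩ : Nonempty (L →+* ℂ) := inferInstance
  choose y hy using fun j => exists_same τ₀ (τ j) (x j)
  refine ⟨τ₀, q * ∏ j, (y j) ^ (n j), ?_⟩
  have h2 : ∀ j, z j / c' j = τ₀ (y j) := fun j => by
    rw [hzx j, hy j, mul_div_assoc, div_self (hc1 j), mul_one]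
  rw [← div_eq_iff hc0, hzq, map_mul, map_prod, map_ratCast]
  simp only [h2, map_zpow₀]

/-- **The weak form over two disjoint Galois fields implies the strong form over `ℚ`.** -/
theorem weak_strong (hΦ : HasWeights w Φ) {Reg : ∀ (F : Type) [Field F] [NumberField F], ℂ → Prop}
    {L L' : Type} [Field L] [NumberField L] [IsGalois ℚ L] [Field L'] [NumberField L']
    [IsGalois ℚ L'] (hdis : Disj L L') (hReg : Descent Reg L) (hReg' : Descent Reg L')
    (h : WeakOver w Φ Reg L) (h' : WeakOver w Φ Reg L') {c : ℂ} (hc : Reg ℚ c) :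
    ∃ z, z ≠ 0 ∧ IsLead w Φ ℚ z ∧ ∃ q : ℚ, z = q * c := by
  obtain ⟨hc0, z, hz, τ, x, hzx⟩ := lead_rel hΦ hReg h hc
  obtain ⟨-, z', hz', τ', x', hzx'⟩ := lead_rel hΦ hReg' h' hc
  have h1 : z = z' := lead_unique hz hz'
  subst h1
  have h2 : τ x = τ' x' := by
    rw [hzx] at hzx'
    exact mul_right_cancel₀ hc0 hzx'
  obtain ⟨q, hq⟩ := hdis τ τ' x x' h2
  exact ⟨z, lead_ne hΦ hz, hz, q, by rw [hzx, hq]⟩

/-- **The hyperelementary subfields suffice.** -/
theorem hyper_weak {Reg : ∀ (F : Type) [Field F] [NumberField F], ℂ → Prop}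
    {L : Type} [Field L] [NumberField L] [IsGalois ℚ L]
    (h : ∀ (F : Type) [Field F] [NumberField F] [Algebra F L], Hyper (L ≃ₐ[F] L) →
      Weak w Φ Reg L F) : WeakOver w Φ Reg L := by
  obtain ⟨ι, hι, Y, a, n, hY, hrel⟩ := hyper_relation L ℚ
  refine ⟨ι, hι, fun j => (Y j).F, fun j => (Y j).fF, fun j => (Y j).nF, fun j => ?_, n, ?_, ?_⟩
  · exact @algebraMap (Y j).F L _ _ (a j)
  · intro g
    rw [← hrel (AlgEquiv.ofRingEquiv (f := g) (fun q => by simp) : GK ℚ)]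
    refine Finset.sum_congr rfl fun j _ => ?_
    rw [fixn_fixed (Module.finrank_self ℚ)]
    rfl
  · intro j
    let _ := a j
    exact h (Y j).F (hY j)

end

end Pool.Agent.Q284.BD
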