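import Pool.Agent.Q284.BD.Re
import Pool.Agent.Q5.DP.Fix

/-! Regulator determinants in a relation between permutation characters. -/

set_option autoImplicit false
set_option linter.unusedSectionVars false

namespace Pool.Agent.Q284.BD

open NumberField Pool.Agent.W401.Cheb Pool.Agent.W353.NF Pool.Agent.Q5.BR Pool.Agent.Q5.DP

section
variable {L : Type} [Field L] [NumberField L] [hL : IsGalois ℚ L]
  {F : Type} [Field F] [NumberField F]

/-- the automorphisms that fix `i(F)` -/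
def fixer (i : F →+* L) : Subgroup (L ≃ₐ[ℚ] L) where
  carrier := {g | ∀ x, g (i x) = i x}
  mul_mem' := fun {a b} ha hb x => by rw [AlgEquiv.mul_apply, hb x, ha x]
  one_mem' := fun x => rfl
  inv_mem' := fun {a} ha x => by
    change a.symm (i x) = i x
    rw [AlgEquiv.symm_apply_eq, ha x]

theorem exists_aut (ι : L →+* AlgebraicClosure ℚ) (i : F →+* L) (j : F →+* AlgebraicClosure ℚ) :
    ∃ s : L ≃ₐ[ℚ] L, ∀ x, ι (s (i x)) = j x := by
  let _ : Algebra F L := i.toAlgebra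
  let _ : Algebra F (AlgebraicClosure ℚ) := j.toAlgebra
  have hst : IsScalarTower ℚ F L := inferInstance
  have halg : Algebra.IsAlgebraic F L := Algebra.IsAlgebraic.tower_top (K := ℚ) F
  let f : L →ₐ[F] AlgebraicClosure ℚ := IsAlgClosed.lift
  have hf : ∀ x : F, f (i x) = j x := fun x => f.commutes x
  let _ : Algebra L (AlgebraicClosure ℚ) := ι.toAlgebra
  let f' : L →ₐ[ℚ] AlgebraicClosure ℚ := (f : L →+* AlgebraicClosure ℚ).toRatAlgHom
  have hst2 : IsScalarTower ℚ L (AlgebraicClosure ℚ) := inferInstance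
  let s : L ≃ₐ[ℚ] L := Normal.algHomEquivAut ℚ (AlgebraicClosure ℚ) L f'
  refine ⟨s, fun x => ?_⟩
  have h1 : (Normal.algHomEquivAut ℚ (AlgebraicClosure ℚ) L).symm s = f' :=
    Equiv.symm_apply_apply _ _
  have h2 := DFunLike.congr_fun h1 (i x)
  rw [← hf x]
  exact h2

theorem exists_aut' (i j : F →+* L) : ∃ s : L ≃ₐ[ℚ] L, ∀ x, s (i x) = j x := by
  let ι : L →+* AlgebraicClosure ℚ := (IsAlgClosed.lift : L →ₐ[ℚ] AlgebraicClosure ℚ).toRingHom
  obtain ⟨s, hs⟩ := exists_aut ι i (ι.comp j)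
  exact ⟨s, fun x => ι.injective (hs x)⟩

theorem exists_lift_gal {K N : Type} [Field K] [Field N] [Algebra K N]
    (ι : N →ₐ[K] AlgebraicClosure K) (g : N ≃ₐ[K] N) :
    ∃ σ : AlgebraicClosure K ≃ₐ[K] AlgebraicClosure K, ∀ x, σ (ι x) = ι (g x) := by
  let _ : Algebra N (AlgebraicClosure K) := ι.toRingHom.toAlgebra
  have hst : IsScalarTower K N (AlgebraicClosure K) :=
    IsScalarTower.of_algebraMap_eq fun x => (ι.commutes x).symm
  have hnor : Normal K (AlgebraicClosure K) := IsAlgClosure.normal K (AlgebraicClosure K)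
  exact ⟨g.liftNormal (AlgebraicClosure K), fun x => g.liftNormal_commutes (AlgebraicClosure K) x⟩

/-- the relations seen in `L` -/
theorem exists_gal (g : L ≃ₐ[ℚ] L) : ∃ σ : GK ℚ, ∀ (F : Type) [Field F] [NumberField F]
    (_ : Algebra ℚ F) (_ : F →+* L), fixn ℚ F σ = fixed F (g : L ≃+* L) := by
  let ι₀ := (IsAlgClosed.lift : L →ₐ[ℚ] AlgebraicClosure ℚ)
  obtain ⟨σ, hg⟩ := exists_lift_gal ι₀ g
  let ι : L →+* AlgebraicClosure ℚ := ι₀.toRingHom
  refine ⟨σ, ?_⟩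
  intro F _ _ a i
  rw [fixn_fixed (Module.finrank_self ℚ) F]
  unfold fixed
  refine (Nat.card_congr (Equiv.ofBijective
    (fun j : {j : F →+* L // ∀ x, (g : L ≃+* L) (j x) = j x} =>
      (⟨ι.comp j.1, fun x => ?_⟩ : {j : F →+* AlgebraicClosure ℚ // ∀ x,
        (σ : AlgebraicClosure ℚ ≃+* AlgebraicClosure ℚ) (j x) = j x})) ⟨?_, ?_⟩)).symm
  · exact (hg (j.1 x)).trans (congrArg ι₀ (j.2 x))
  · rintro ⟨j, hj⟩ ⟨j', hj'⟩ h
    apply Subtype.ext
    refine RingHom.ext fun x => ι.injective ?_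
    exact DFunLike.congr_fun (congrArg Subtype.val h) x
  · rintro ⟨j, hj⟩
    obtain ⟨s, hs⟩ := exists_aut ι i j
    refine ⟨⟨((s : L ≃+* L) : L →+* L).comp i, fun x => ?_⟩, ?_⟩
    · apply ι.injective
      have h1 := hj x
      rw [← hs x] at h1
      exact (hg (s (i x))).symm.trans h1
    · apply Subtype.ext
      exact RingHom.ext fun x => hs x

open Classical in
theorem fixed_sum (g : L ≃ₐ[ℚ] L) :
    (fixed F (g : L ≃+* L) : ℂ) = ∑ j : F →+* L, if g ∈ fixer j then 1 else 0 := by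
  unfold fixed
  rw [Nat.card_eq_fintype_card, Fintype.card_subtype, Finset.sum_boole]
  rfl

open Classical in
theorem card_mul (i : F →+* L) :
    (Nat.card (fixer i) : ℂ) * (Fintype.card (F →+* L) : ℂ) = (Fintype.card (L ≃ₐ[ℚ] L) : ℂ) := by
  let f : (L ≃ₐ[ℚ] L) → (F →+* L) := fun s => ((s : L ≃+* L) : L →+* L).comp i
  have h1 : ∀ j : F →+* L, (Finset.univ.filter fun s => f s = j).card = Nat.card (fixer i) := by
    intro j
    obtain ⟨s₀, hs₀⟩ := exists_aut' i j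
    rw [Nat.card_eq_fintype_card, ← Fintype.card_subtype]
    have ha : ∀ h : fixer i, f (s₀ * h.1) = j := fun h => by
      refine RingHom.ext fun x => ?_
      change s₀ (h.1 (i x)) = j x
      rw [h.2 x, hs₀]
    have hb : ∀ s : {s // f s = j}, s₀⁻¹ * s.1 ∈ fixer i := fun s => by
      intro x
      have h2 := DFunLike.congr_fun s.2 x
      change s₀.symm (s.1 (i x)) = i x
      rw [AlgEquiv.symm_apply_eq, hs₀]
      exact h2
    let E : fixer i ≃ {s // f s = j} :=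
      { toFun := fun h => ⟨s₀ * h.1, ha h⟩
        invFun := fun s => ⟨s₀⁻¹ * s.1, hb s⟩
        left_inv := fun h => Subtype.ext (inv_mul_cancel_left s₀ h.1)
        right_inv := fun s => Subtype.ext (mul_inv_cancel_left s₀ s.1) }
    exact (Fintype.card_congr E).symm
  have h2 := Finset.card_eq_sum_card_fiberwise (f := f) (s := Finset.univ) (t := Finset.univ)
    (fun _ _ => Finset.mem_univ _)
  rw [Finset.sum_congr rfl fun j _ => h1 j, Finset.sum_const, Finset.card_univ, Finset.card_univ,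
    smul_eq_mul] at h2
  rw [h2]
  push_cast
  ring

open Classical in
theorem class_sum (i : F →+* L) (τ : (L ≃ₐ[ℚ] L) → ℂ) (hτ : ∀ s g, τ (s * g * s⁻¹) = τ g) :
    (Nat.card (fixer i) : ℂ)⁻¹ * ∑ g, (if g ∈ fixer i then τ g else 0) =
      (Fintype.card (L ≃ₐ[ℚ] L) : ℂ)⁻¹ * ∑ g, τ g * (fixed F (g : L ≃+* L) : ℂ) := by
  have h1 : ∑ g, τ g * (fixed F (g : L ≃+* L) : ℂ) =
      (Fintype.card (F →+* L) : ℂ) * ∑ g, (if g ∈ fixer i then τ g else 0) := by
    rw [Finset.sum_congr rfl fun g _ => by rw [fixed_sum g, Finset.mul_sum], Finset.sum_comm]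
    have h2 : ∀ j : F →+* L, ∑ g, τ g * (if g ∈ fixer j then (1 : ℂ) else 0) =
        ∑ g, (if g ∈ fixer i then τ g else 0) := by
      intro j
      obtain ⟨s, hs⟩ := exists_aut' i j
      rw [← Equiv.sum_comp (MulAut.conj s).toEquiv
        (fun g => τ g * (if g ∈ fixer j then (1 : ℂ) else 0))]
      refine Finset.sum_congr rfl fun g _ => ?_
      change τ (s * g * s⁻¹) * (if s * g * s⁻¹ ∈ fixer j then (1 : ℂ) else 0) = _
      rw [hτ]
      have h3 : s * g * s⁻¹ ∈ fixer j ↔ g ∈ fixer i := by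
        constructor
        · intro h x
          have h4 := h x
          change s (g (s.symm (j x))) = j x at h4
          rw [← hs x, AlgEquiv.symm_apply_apply] at h4
          exact s.injective h4
        · intro h x
          change s (g (s.symm (j x))) = j x
          rw [← hs x, AlgEquiv.symm_apply_apply, h x]
      simp only [h3]
      split_ifs
      · rw [mul_one]
      · rw [mul_zero]
    rw [Finset.sum_congr rfl fun j _ => h2 j, Finset.sum_const, Finset.card_univ, nsmul_eq_mul]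
  rw [h1, ← card_mul i, mul_inv, mul_assoc, ← mul_assoc ((Fintype.card (F →+* L) : ℂ)⁻¹)]
  have h2 : (Fintype.card (F →+* L) : ℂ) ≠ 0 := by
    have : Nonempty (F →+* L) := ⟨i⟩
    exact_mod_cast Fintype.card_pos.ne'
  rw [inv_mul_cancel₀ h2, one_mul]

end

section
variable {L : Type} [Field L] [NumberField L] [hL : IsGalois ℚ L]

open Classical in
theorem trace_av {k : ℕ} (ρ : (L ≃ₐ[ℚ] L) →* Matrix (Fin k) (Fin k) ℚ)
    (A : Matrix (Fin k) (Fin k) ℂ) (hA : ∀ g, A * (ρ g).map (algebraMap ℚ ℂ) =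
      (ρ g).map (algebraMap ℚ ℂ) * A) {F : Type} [Field F] [NumberField F] (i : F →+* L) (n : ℕ) :
    (A ^ n * (av ρ (fixer i)).map (algebraMap ℚ ℂ)).trace =
      (Fintype.card (L ≃ₐ[ℚ] L) : ℂ)⁻¹ * ∑ g, (A ^ n * (ρ g).map (algebraMap ℚ ℂ)).trace *
        (fixed F (g : L ≃+* L) : ℂ) := by
  have hAn : ∀ g, A ^ n * (ρ g).map (algebraMap ℚ ℂ) = (ρ g).map (algebraMap ℚ ℂ) * A ^ n :=
    fun g => Commute.pow_left (hA g) n
  rw [← class_sum i (fun g => (A ^ n * (ρ g).map (algebraMap ℚ ℂ)).trace)]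
  · unfold av
    have h1 : ((Nat.card (fixer i) : ℚ)⁻¹ • ∑ g : L ≃ₐ[ℚ] L, if g ∈ fixer i then ρ g else 0).map
        (algebraMap ℚ ℂ) = (Nat.card (fixer i) : ℂ)⁻¹ • ∑ g : L ≃ₐ[ℚ] L,
          (if g ∈ fixer i then (ρ g).map (algebraMap ℚ ℂ) else 0) := by
      ext a b
      simp only [Matrix.map_apply, Matrix.smul_apply, Matrix.sum_apply, smul_eq_mul, map_mul,
        map_sum, eq_ratCast]
      push_cast
      congr 1
      refine Finset.sum_congr rfl fun g _ => ?_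
      split_ifs
      · simp
      · simp
    rw [h1, Matrix.mul_smul, Matrix.trace_smul, smul_eq_mul, Finset.mul_sum, Matrix.trace_sum]
    congr 1
    refine Finset.sum_congr rfl fun g _ => ?_
    split_ifs
    · rfl
    · rw [mul_zero, Matrix.trace_zero]
  · intro s g
    have h2 : (ρ s⁻¹).map (algebraMap ℚ ℂ) * (ρ s).map (algebraMap ℚ ℂ) = 1 := by
      rw [← Matrix.map_mul, ← map_mul, inv_mul_cancel, map_one,
        Matrix.map_one _ (map_zero _) (map_one _)]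
    rw [map_mul, map_mul, Matrix.map_mul, Matrix.map_mul, ← mul_assoc, Matrix.trace_mul_comm,
      ← mul_assoc, ← mul_assoc, ← hAn, mul_assoc (A ^ n), h2, mul_one]

/-- the regulators of the subfields of `L` come from an equivariant isomorphism -/
def Descent (Reg : ∀ (F : Type) [Field F] [NumberField F], ℂ → Prop) (L : Type) [Field L]
    [NumberField L] : Prop :=
  ∃ (k : ℕ) (ρ ρ' : (L ≃ₐ[ℚ] L) →* Matrix (Fin k) (Fin k) ℚ) (A : Matrix (Fin k) (Fin k) ℂ),
    A.det ≠ 0 ∧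
    (∀ g, A * (ρ g).map (algebraMap ℚ ℂ) = (ρ' g).map (algebraMap ℚ ℂ) * A) ∧
    ∀ (F : Type) [Field F] [NumberField F] (i : F →+* L) (c : ℂ), Reg F c →
      IsDet ρ ρ' A (fixer i) c

theorem fixed_rat (g : L ≃ₐ[ℚ] L) : fixed ℚ (g : L ≃+* L) = 1 := by
  unfold fixed
  rw [Nat.card_eq_one_iff_unique]
  refine ⟨⟨fun i j => Subtype.ext (RingHom.ext fun x => ?_)⟩, ⟨⟨algebraMap ℚ L, fun x => ?_⟩⟩⟩
  · rw [eq_ratCast, eq_ratCast]
  · rw [eq_ratCast, map_ratCast]

/-- **The relation between the regulators.** -/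
theorem reg_rel {Reg : ∀ (F : Type) [Field F] [NumberField F], ℂ → Prop} (hReg : Descent Reg L)
    {ι : Type} [Fintype ι] {F : ι → Type} [∀ j, Field (F j)] [∀ j, NumberField (F j)]
    (i : ∀ j, F j →+* L) (n : ι → ℤ)
    (hrel : ∀ g : L ≃ₐ[ℚ] L, ∑ j, n j * (fixed (F j) (g : L ≃+* L) : ℤ) = 1)
    {c : ι → ℂ} (hc : ∀ j, Reg (F j) (c j)) {c₀ : ℂ} (hc₀ : Reg ℚ c₀) :
    (∀ j, c j ≠ 0) ∧ c₀ ≠ 0 ∧ ∃ q : ℚ, q ≠ 0 ∧ ∏ j, (c j) ^ (n j) = q * c₀ := by
  classical
  obtain ⟨k, ρ, ρ', A, hA, hAρ, hR⟩ := hReg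
  obtain ⟨T, hT0, hT⟩ := exists_rational (fun g => ρ g) (fun g => ρ' g) A hA hAρ
  have h1 : ∀ j, _ := fun j => det_trace hT0 hT (hR (F j) (i j) (c j) (hc j))
  choose m B hB1 hB2 q hq hcB using h1
  obtain ⟨m₀, B₀, hB₀1, hB₀2, q₀, hq₀, hcB₀⟩ := det_trace hT0 hT (hR ℚ (algebraMap ℚ L) c₀ hc₀)
  have hTu : IsUnit T.det := isUnit_iff_ne_zero.2 hT0
  have hcomm : ∀ g, ((T⁻¹).map (algebraMap ℚ ℂ) * A) * (ρ g).map (algebraMap ℚ ℂ) =
      (ρ g).map (algebraMap ℚ ℂ) * ((T⁻¹).map (algebraMap ℚ ℂ) * A) := by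
    intro g
    have h2 : T⁻¹ * ρ' g = ρ g * T⁻¹ := by
      calc T⁻¹ * ρ' g = T⁻¹ * (ρ' g * T) * T⁻¹ := by
            rw [mul_assoc, mul_assoc, Matrix.mul_nonsing_inv T hTu, mul_one]
        _ = T⁻¹ * (T * ρ g) * T⁻¹ := by rw [hT g]
        _ = _ := by rw [← mul_assoc T⁻¹ T, Matrix.nonsing_inv_mul T hTu, one_mul]
    rw [mul_assoc, hAρ g, ← mul_assoc, ← Matrix.map_mul, h2, Matrix.map_mul, mul_assoc]
  have hdet := det_rel B n B₀ (fun j => hB2 j hA) (hB₀2 hA) (fun N => by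
    rw [hB₀1 N, Finset.sum_congr rfl fun j _ => by rw [hB1 j N]]
    rw [trace_av ρ _ hcomm, Finset.sum_congr rfl fun j _ => by rw [trace_av ρ _ hcomm (i j)]]
    rw [Finset.sum_congr rfl fun j _ => mul_left_comm _ _ _, ← Finset.mul_sum]
    congr 1
    rw [Finset.sum_congr rfl fun j _ => Finset.mul_sum _ _ _, Finset.sum_comm]
    refine Finset.sum_congr rfl fun g _ => ?_
    have h3 : ∑ j, (n j : ℂ) * (fixed (F j) (g : L ≃+* L) : ℂ) = 1 := by exact_mod_cast hrel g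
    rw [fixed_rat, Nat.cast_one, mul_one]
    rw [Finset.sum_congr rfl fun j _ => mul_left_comm _ _ _, ← Finset.mul_sum, h3, mul_one])
  refine ⟨fun j => ?_, ?_, (∏ j, (q j) ^ (n j)) / q₀, ?_, ?_⟩
  · rw [hcB j]
    exact mul_ne_zero (by exact_mod_cast hq j) (hB2 j hA)
  · rw [hcB₀]
    exact mul_ne_zero (by exact_mod_cast hq₀) (hB₀2 hA)
  · exact div_ne_zero (Finset.prod_ne_zero_iff.2 fun j _ => zpow_ne_zero _ (hq j)) hq₀
  · have hq₀' : (q₀ : ℂ) ≠ 0 := by exact_mod_cast hq₀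
    rw [hcB₀, ← hdet, Finset.prod_congr rfl fun j _ => by rw [hcB j, mul_zpow],
      Finset.prod_mul_distrib]
    push_cast
    field_simp

end

end Pool.Agent.Q284.BD
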