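import Pool.Agent.Q284.BD.Tr

/-! Determinants of equivariant maps on invariants, in rational bases. -/

set_option autoImplicit false
set_option linter.unusedSectionVars false

namespace Pool.Agent.Q284.BD

open Matrix

section
variable {k m : ℕ}

/-- the matrix of a basis of a subspace -/
noncomputable def colM {W : Submodule ℚ (Fin k → ℚ)} (b : Module.Basis (Fin m) ℚ W) :
    Matrix (Fin k) (Fin m) ℚ := Matrix.of fun l j => (b j : Fin k → ℚ) l

theorem exists_P {W : Submodule ℚ (Fin k → ℚ)} (e : Matrix (Fin k) (Fin k) ℚ)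
    (h1 : ∀ v, e *ᵥ v ∈ W) (h2 : ∀ v ∈ W, e *ᵥ v = v) (b : Module.Basis (Fin m) ℚ W) :
    ∃ P : Matrix (Fin m) (Fin k) ℚ, colM b * P = e ∧ P * colM b = 1 := by
  classical
  let P : Matrix (Fin m) (Fin k) ℚ := Matrix.of fun j l =>
    b.repr ⟨e *ᵥ Pi.single l 1, h1 _⟩ j
  have hexp : ∀ w : W, ∀ l, ∑ j, (b j : Fin k → ℚ) l * b.repr w j = (w : Fin k → ℚ) l := by
    intro w l
    have h3 := congrArg (fun v : W => (v : Fin k → ℚ) l) (b.sum_repr w)
    simp only [Submodule.coe_sum, Submodule.coe_smul, Finset.sum_apply, Pi.smul_apply,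
      smul_eq_mul] at h3
    rw [← h3]
    exact Finset.sum_congr rfl fun j _ => mul_comm _ _
  have hUP : colM b * P = e := by
    ext i l
    rw [Matrix.mul_apply]
    have h3 := hexp ⟨e *ᵥ Pi.single l 1, h1 _⟩ i
    refine Eq.trans h3 ?_
    change (e *ᵥ Pi.single l 1) i = e i l
    rw [Matrix.mulVec_single_one]
    rfl
  refine ⟨P, hUP, ?_⟩
  -- injectivity of the columns
  have h4 : colM b * (P * colM b) = colM b * (1 : Matrix (Fin m) (Fin m) ℚ) := by
    rw [← Matrix.mul_assoc, hUP, Matrix.mul_one]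
    ext i j
    rw [Matrix.mul_apply]
    exact congrFun (h2 _ (b j).2) i
  ext i j
  have h5 : ∑ a, ((P * colM b) a j - (1 : Matrix (Fin m) (Fin m) ℚ) a j) • b a = 0 := by
    apply Subtype.ext
    funext l
    have h6 := congrFun (congrFun h4 l) j
    rw [Matrix.mul_apply, Matrix.mul_apply] at h6
    simp only [Submodule.coe_sum, Submodule.coe_smul, Finset.sum_apply, Pi.smul_apply,
      smul_eq_mul, Submodule.coe_zero, Pi.zero_apply]
    have h7 : ∑ a, ((P * colM b) a j - (1 : Matrix (Fin m) (Fin m) ℚ) a j) *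
        (b a : Fin k → ℚ) l = ∑ a, colM b l a * (P * colM b) a j -
          ∑ a, colM b l a * (1 : Matrix (Fin m) (Fin m) ℚ) a j := by
      rw [← Finset.sum_sub_distrib]
      refine Finset.sum_congr rfl fun a _ => ?_
      change _ = (b a : Fin k → ℚ) l * _ - (b a : Fin k → ℚ) l * _
      ring
    rw [h7, h6, sub_self]
  have h6 := Fintype.linearIndependent_iff.1 b.linearIndependent _ h5 i
  exact sub_eq_zero.1 h6

end

section
variable {G : Type} [Group G] [Fintype G] {k : ℕ}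

/-- the invariants of a subgroup -/
def Inv (ρ : G →* Matrix (Fin k) (Fin k) ℚ) (H : Subgroup G) : Submodule ℚ (Fin k → ℚ) where
  carrier := {v | ∀ g ∈ H, ρ g *ᵥ v = v}
  add_mem' := fun {v w} hv hw g hg => by rw [Matrix.mulVec_add, hv g hg, hw g hg]
  zero_mem' := fun g _ => Matrix.mulVec_zero _
  smul_mem' := fun c v hv g hg => by rw [Matrix.mulVec_smul, hv g hg]

/-- `c` is the determinant of `A` on the invariants of `H`, in rational bases -/
def IsDet (ρ ρ' : G →* Matrix (Fin k) (Fin k) ℚ) (A : Matrix (Fin k) (Fin k) ℂ)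
    (H : Subgroup G) (c : ℂ) : Prop :=
  ∃ (m : ℕ) (b : Module.Basis (Fin m) ℚ (Inv ρ H)) (b' : Module.Basis (Fin m) ℚ (Inv ρ' H))
    (R : Matrix (Fin m) (Fin m) ℂ),
    A * (colM b).map (algebraMap ℚ ℂ) = (colM b').map (algebraMap ℚ ℂ) * R ∧ R.det = c

open Classical in
/-- the average over a subgroup -/
noncomputable def av (ρ : G →* Matrix (Fin k) (Fin k) ℚ) (H : Subgroup G) :
    Matrix (Fin k) (Fin k) ℚ :=
  (Nat.card H : ℚ)⁻¹ • ∑ g : G, if g ∈ H then ρ g else 0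

open Classical in
theorem av_mem (ρ : G →* Matrix (Fin k) (Fin k) ℚ) (H : Subgroup G) (v : Fin k → ℚ) :
    av ρ H *ᵥ v ∈ Inv ρ H := by
  intro g hg
  rw [Matrix.mulVec_mulVec]
  congr 1
  unfold av
  rw [Matrix.mul_smul, Finset.mul_sum]
  congr 1
  rw [← Equiv.sum_comp (Equiv.mulLeft g) (fun x => if x ∈ H then ρ x else 0)]
  refine Finset.sum_congr rfl fun x _ => ?_
  rw [Equiv.coe_mulLeft, H.mul_mem_cancel_left hg, map_mul]
  split_ifs
  · rfl
  · rw [mul_zero]

open Classical in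
theorem av_fix (ρ : G →* Matrix (Fin k) (Fin k) ℚ) (H : Subgroup G) (v : Fin k → ℚ)
    (hv : v ∈ Inv ρ H) : av ρ H *ᵥ v = v := by
  unfold av
  rw [Matrix.smul_mulVec, Matrix.sum_mulVec]
  have h1 : ∀ g : G, (if g ∈ H then ρ g else 0) *ᵥ v = if g ∈ H then v else 0 := by
    intro g
    split_ifs with h
    · exact hv g h
    · rw [Matrix.zero_mulVec]
  rw [Finset.sum_congr rfl fun g _ => h1 g, ← Finset.sum_filter, Finset.sum_const,
    ← Nat.cast_smul_eq_nsmul ℚ, smul_smul]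
  have h2 : (Finset.univ.filter fun g : G => g ∈ H).card = Nat.card H := by
    rw [Nat.card_eq_fintype_card, Fintype.card_subtype]
  rw [h2, inv_mul_cancel₀, one_smul]
  exact_mod_cast Nat.card_pos.ne'

open Classical in
theorem av_comm {ρ ρ' : G →* Matrix (Fin k) (Fin k) ℚ} {T : Matrix (Fin k) (Fin k) ℚ}
    (hT : ∀ g, T * ρ g = ρ' g * T) (H : Subgroup G) : T * av ρ H = av ρ' H * T := by
  unfold av
  rw [Matrix.mul_smul, Matrix.smul_mul, Finset.mul_sum, Finset.sum_mul]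
  congr 1
  refine Finset.sum_congr rfl fun g _ => ?_
  split_ifs
  · exact hT g
  · rw [mul_zero, zero_mul]

/-- the determinant on the invariants through power traces -/
theorem det_trace {ρ ρ' : G →* Matrix (Fin k) (Fin k) ℚ} {A : Matrix (Fin k) (Fin k) ℂ}
    {T : Matrix (Fin k) (Fin k) ℚ} (hT0 : T.det ≠ 0) (hT : ∀ g, T * ρ g = ρ' g * T)
    {H : Subgroup G} {c : ℂ} (hc : IsDet ρ ρ' A H c) :
    ∃ (m : ℕ) (B : Matrix (Fin m) (Fin m) ℂ),
      (∀ n : ℕ, (B ^ n).trace =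
        (((T⁻¹).map (algebraMap ℚ ℂ) * A) ^ n * (av ρ H).map (algebraMap ℚ ℂ)).trace) ∧
      (A.det ≠ 0 → B.det ≠ 0) ∧ ∃ q : ℚ, q ≠ 0 ∧ c = q * B.det := by
  obtain ⟨m, b, b', R, hR, hRc⟩ := hc
  obtain ⟨P, hP1, hP2⟩ := exists_P (av ρ H) (av_mem ρ H) (av_fix ρ H) b
  obtain ⟨P', hP1', hP2'⟩ := exists_P (av ρ' H) (av_mem ρ' H) (av_fix ρ' H) b'
  have hTu : IsUnit T.det := isUnit_iff_ne_zero.2 hT0
  set U := colM b
  set U' := colM b'
  let C' : Matrix (Fin m) (Fin m) ℚ := P * T⁻¹ * U'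
  let C : Matrix (Fin m) (Fin m) ℚ := P' * T * U
  have hTT : T⁻¹ * T = 1 := Matrix.nonsing_inv_mul T hTu
  have hTT' : T * T⁻¹ = 1 := Matrix.mul_nonsing_inv T hTu
  have hav := av_comm hT H
  have hav' : T⁻¹ * av ρ' H = av ρ H * T⁻¹ := by
    calc T⁻¹ * av ρ' H = T⁻¹ * (av ρ' H * T) * T⁻¹ := by
          rw [Matrix.mul_assoc, Matrix.mul_assoc, hTT', Matrix.mul_one]
      _ = T⁻¹ * (T * av ρ H) * T⁻¹ := by rw [hav]
      _ = _ := by rw [← Matrix.mul_assoc T⁻¹ T, hTT, Matrix.one_mul]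
  have hC : C' * C = 1 := by
    calc C' * C = P * T⁻¹ * (U' * P') * T * U := by simp only [C, C', Matrix.mul_assoc]
      _ = P * (T⁻¹ * av ρ' H) * T * U := by rw [hP1', Matrix.mul_assoc P]
      _ = P * (av ρ H * T⁻¹) * T * U := by rw [hav']
      _ = P * av ρ H * (T⁻¹ * T) * U := by simp only [Matrix.mul_assoc]
      _ = P * (U * P) * U := by rw [hTT, Matrix.mul_one, hP1]
      _ = (P * U) * (P * U) := by simp only [Matrix.mul_assoc]
      _ = 1 := by rw [hP2, Matrix.one_mul]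
  have hUC : T⁻¹ * U' = U * C' := by
    have h1 : U' = av ρ' H * U' := by
      rw [← hP1', Matrix.mul_assoc, hP2', Matrix.mul_one]
    calc T⁻¹ * U' = T⁻¹ * av ρ' H * U' := by rw [Matrix.mul_assoc, ← h1]
      _ = av ρ H * T⁻¹ * U' := by rw [hav']
      _ = U * P * T⁻¹ * U' := by rw [hP1]
      _ = U * C' := by simp only [C', Matrix.mul_assoc]
  let ι : ℚ →+* ℂ := algebraMap ℚ ℂ
  let B : Matrix (Fin m) (Fin m) ℂ := C'.map ι * R
  have hAB : ((T⁻¹).map ι * A) * U.map ι = U.map ι * B := by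
    calc ((T⁻¹).map ι * A) * U.map ι = (T⁻¹).map ι * (A * U.map ι) := by rw [Matrix.mul_assoc]
      _ = (T⁻¹).map ι * (U'.map ι * R) := by rw [hR]
      _ = (T⁻¹ * U').map ι * R := by rw [← Matrix.mul_assoc, Matrix.map_mul]
      _ = (U * C').map ι * R := by rw [hUC]
      _ = _ := by rw [Matrix.map_mul, Matrix.mul_assoc]
  have hpow : ∀ n : ℕ, ((T⁻¹).map ι * A) ^ n * U.map ι = U.map ι * B ^ n := by
    intro n
    induction n with
    | zero => rw [pow_zero, pow_zero, Matrix.one_mul, Matrix.mul_one]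
    | succ n ih => rw [pow_succ, Matrix.mul_assoc, hAB, ← Matrix.mul_assoc, ih, Matrix.mul_assoc, pow_succ]
  have hPU : P.map ι * U.map ι = 1 := by
    rw [← Matrix.map_mul, hP2, Matrix.map_one _ (map_zero _) (map_one _)]
  have hdetC : C'.det * C.det = 1 := by rw [← Matrix.det_mul, hC, Matrix.det_one]
  have hC0 : C'.det ≠ 0 := left_ne_zero_of_mul_eq_one hdetC
  have hdetB : B.det = (C'.det : ℂ) * R.det := by
    have h1 := RingHom.map_det ι C'
    rw [Matrix.det_mul]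
    congr 1
    exact h1.symm
  refine ⟨m, B, fun n => ?_, fun hA => ?_, (C'.det)⁻¹, inv_ne_zero hC0, ?_⟩
  · have h1 : B ^ n = P.map ι * (((T⁻¹).map ι * A) ^ n * U.map ι) := by
      rw [hpow, ← Matrix.mul_assoc, hPU, Matrix.one_mul]
    rw [h1, Matrix.trace_mul_comm, Matrix.mul_assoc, ← Matrix.map_mul, hP1]
  · -- B is invertible
    have hTA : IsUnit ((T⁻¹).map ι * A) := by
      rw [Matrix.isUnit_iff_isUnit_det, Matrix.det_mul]
      have h1 := RingHom.map_det ι T⁻¹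
      have h2 : T⁻¹.det ≠ 0 := by
        have h3 : T⁻¹.det * T.det = 1 := by rw [← Matrix.det_mul, hTT, Matrix.det_one]
        exact left_ne_zero_of_mul_eq_one h3
      refine isUnit_iff_ne_zero.2 (mul_ne_zero ?_ hA)
      have h3 : ((T⁻¹).map ι).det = ι T⁻¹.det := h1.symm
      rw [h3]
      exact (map_ne_zero ι).2 h2
    intro h0
    obtain ⟨v, hv, hv0⟩ := Matrix.exists_mulVec_eq_zero_iff.2 h0
    have h1 : ((T⁻¹).map ι * A) *ᵥ (U.map ι *ᵥ v) = 0 := by
      rw [Matrix.mulVec_mulVec, hAB, ← Matrix.mulVec_mulVec, hv0, Matrix.mulVec_zero]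
    have h2 : U.map ι *ᵥ v = 0 := by
      obtain ⟨u, hu⟩ := hTA
      have h3 : (↑u⁻¹ : Matrix (Fin k) (Fin k) ℂ) * ((T⁻¹).map ι * A) = 1 := by
        rw [← hu]
        exact u.inv_mul
      have h4 := congrArg ((↑u⁻¹ : Matrix (Fin k) (Fin k) ℂ) *ᵥ ·) h1
      simp only [Matrix.mulVec_mulVec, Matrix.mulVec_zero] at h4
      rwa [← Matrix.mul_assoc, h3, Matrix.one_mul] at h4
    apply hv
    have h3 := congrArg (P.map ι *ᵥ ·) h2
    simp only [Matrix.mulVec_mulVec, Matrix.mulVec_zero] at h3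
    rwa [hPU, Matrix.one_mulVec] at h3
  · have h1 : ((C'.det : ℚ) : ℂ) ≠ 0 := by exact_mod_cast hC0
    rw [hdetB, hRc, Rat.cast_inv, inv_mul_cancel_left₀ h1]

end

end Pool.Agent.Q284.BD
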